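import Pool.Agent.Q212.TwoColor

/-!
# MP_04172d: a Mazurkiewicz set containing Hamel functions in every direction
-/

namespace Pool.Agent.Results.MP_04172d_lc.HamelInEveryDirection

open Pool.Agent.Q212.TwoPoint

/-- **Main theorem** (positive answer to Q1). There is a Mazurkiewicz set `M` such that for every
angle `θ` the rotated set `rot θ '' M` contains the graph of a Hamel function. -/
theorem result : ∃ M : Set (ℝ × ℝ), Mazurkiewicz M ∧
    ∀ θ : ℝ, ∃ h : ℝ → ℝ, HamelFunction h ∧ {p : ℝ × ℝ | p.2 = h p.1} ⊆ rot θ '' M := by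
  obtain ⟨M, hM, h⟩ := exists_all_directions
  refine ⟨M, hM, fun θ => ?_⟩
  obtain ⟨f, g, hf, _, heq⟩ := h θ
  exact ⟨f, hf, by rw [heq]; exact Set.subset_union_left⟩

end Pool.Agent.Results.MP_04172d_lc.HamelInEveryDirection
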